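import Pool.Agent.Lib.SmL.Cnt.Defs
import Pool.Agent.Lib.SmL.G.CTDefs

/-!
# SMITH-L, counting half: the statements exchanged between the blocks G6, I, J, K, L
-/

set_option autoImplicit false

open Finset

namespace Pool.Agent.SmL

/-- The bound between small and large degrees. -/
noncomputable def N0 (n : ℕ) : ℕ := ⌊(Real.log n) ^ 3⌋₊

/-- The directions: `none = ib`, `some none = ia`, `some (some i)` the unsupported ones. -/
abbrev Dir (m : ℕ) : Type := Option (Option (Fin m))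

/-- The additive character of `ZMod l`. -/
noncomputable def psi {l : ℕ} (a : ZMod l) : ℂ :=
  Complex.exp (2 * Real.pi * Complex.I * (a.val : ℂ) / (l : ℂ))

/-! ### Block K: anatomy of the twists -/

/-- Nice divisors. -/
structure NiceN (X : PSys) (l m0 : ℕ) (c0 δ : ℝ) (n : ℕ) (D : Finset X.Pr) : Prop where
  few : (D.card : ℝ) ≤ 2 * l * Real.log n
  dist : ∀ P ∈ D, ∀ Q ∈ D, N0 n ≤ X.deg P → X.deg P = X.deg Q → P = Q
  many : c0 * Real.log n ≤ Nat.card {P : X.Pr // P ∈ D ∧ N0 n ≤ X.deg P ∧ m0 ∣ X.deg P}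
  small : (Nat.card {P : X.Pr // P ∈ D ∧ X.deg P < N0 n} : ℝ) ≤ δ * Real.log n

/-- **Block K**. -/
def KThm (X : PSys) (l m0 : ℕ) (c0 : ℝ) : Prop :=
  ∀ ε δ : ℝ, 0 < ε → 0 < δ → ∃ n₀, ∀ n ≥ n₀,
    (Nat.card {c : X.TD l n // ¬ NiceN X l m0 c0 δ n c.1.support} : ℝ) ≤ ε * X.nTD l n

/-- A grid: the small primes and the degrees of the large ones. -/
structure GrN (X : PSys) (l m0 : ℕ) (c0 δ : ℝ) (n : ℕ) (Ds : Finset X.Pr) (T : Finset ℕ) :
    Prop where
  deg : X.degS Ds + ∑ t ∈ T, t = n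
  few : ((Ds.card + T.card : ℕ) : ℝ) ≤ 2 * l * Real.log n
  large : ∀ t ∈ T, N0 n ≤ t
  sml : ∀ P ∈ Ds, X.deg P < N0 n
  many : c0 * Real.log n ≤ (T.filter fun t => m0 ∣ t).card
  small : (Ds.card : ℝ) ≤ δ * Real.log n

section

variable {l : ℕ} {A G V V1 Pl : Type} [CommRing A] [Group G] [AddCommGroup V] [Module A V]
  [DistribMulAction G V] [AddCommGroup V1] [Module (ZMod l) V1]

/-- The level `m` is symmetric: the diagonal values of the Cassels-Tate pairing of level `m` are not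
forced to vanish. -/
def Sys.Symm (S : Sys l A G V V1 Pl) (m : ℕ) : Prop := S.se * (-1) ^ m = 1

namespace CData

variable {S : Sys l A G V V1 Pl} {X : PSys} (cd : CData S X)

/-- The marked points of a grid. -/
abbrev MPts (T : Finset ℕ) : Type := (t : T) → X.Of t × {g : G // g ∈ cd.R}

/-- The index set of a grid. -/
abbrev JG (Ds : Finset X.Pr) (T : Finset ℕ) : Type := Ds ⊕ T

/-- The vector of marked primes of a point (the small primes carry the mark `r0`). -/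
def vec (r0 : {g : G // g ∈ cd.R}) (Ds : Finset X.Pr) {T : Finset ℕ} (x : cd.MPts T) :
    JG Ds T → cd.Mk
  | Sum.inl P => (P.1, r0)
  | Sum.inr t => ((x t).1.1, (x t).2)

/-! ### Block J -/

/-- **Block J**: almost all marked points of every nice grid are typical, for all exponents. -/
def JThm (m0 : ℕ) (c0 : ℝ) (r0 : {g : G // g ∈ cd.R}) : Prop :=
  ∀ ε : ℝ, 0 < ε → ∃ (R : ℕ) (ρ δ : ℝ), 0 < ρ ∧ 0 < δ ∧ ∃ n₀, ∀ n ≥ n₀,
    ∀ (Ds : Finset X.Pr) (T : Finset ℕ), GrN X l m0 c0 δ n Ds T →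
    ∀ ex : JG Ds T → ZMod l, (∀ j, ex j ≠ 0) →
      (Nat.card {x : cd.MPts T // ¬ cd.TypN ex (cd.vec r0 Ds x) R ρ (N0 n)} : ℝ) ≤
        ε * Nat.card (cd.MPts T)

variable {J : Type} [Fintype J]

/-! ### The tower of Selmer cocycles in codes -/

/-- `Psi` is a Selmer cocycle of level `i` above the code `a`: `lam ^ (i - 1) Psi = a`. -/
def AbvN (ex : J → ZMod l) (p : J → cd.Mk) (i : ℕ) (a : cd.CodeN J) (Psi : G → V) : Prop :=
  S.IsSel (cd.chiN ex p) i Psi ∧ ∀ s, S.lam ^ (i - 1) • Psi s = S.iota (cd.homN p a s)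

/-- The relation `Lam i`: the pairs `(a, <Psi, .>)`, `Psi` of level `i` above `a`. The functional is
extended by `0` to the codes outside `FN`. -/
def LamN (ex : J → ZMod l) (p : J → cd.Mk) (i : ℕ) :
    Set (cd.CodeN J × (cd.CodeN J → ZMod l)) :=
  {y | y.1 ∈ cd.FN ex p ∧ ∃ Psi : G → V, cd.AbvN ex p i y.1 Psi ∧
    (∀ c ∈ cd.FN ex p, y.2 c = S.CT (cd.chiN ex p) Psi (cd.homN p c)) ∧
    ∀ c, c ∉ cd.FN ex p → y.2 c = 0}

open Classical in
/-- `F_ab`: the value `<Psi, b>` for `Psi` of level `m` above `a` (`0` if there is none). -/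
noncomputable def FFN (ex : J → ZMod l) (p : J → cd.Mk) (m : ℕ) (a b : cd.CodeN J) : ZMod l :=
  if h : ∃ Psi : G → V, cd.AbvN ex p m a Psi then S.CT (cd.chiN ex p) h.choose (cd.homN p b)
  else 0

/-- `L 1 = F`, `L (i + 1) = {a | (a, 0) ∈ Lam i}`. -/
def LflN {J : Type} (F : Set (cd.CodeN J)) (Lam : ℕ → Set (cd.CodeN J × (cd.CodeN J → ZMod l))) :
    ℕ → Set (cd.CodeN J)
  | 0 => F
  | 1 => F
  | i + 2 => {a | (a, 0) ∈ Lam (i + 1)}

/-- `b` is perpendicular to all Selmer cocycles of level `i` (`i = 0`: no condition). -/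
def PerpN {J : Type} (Lam : ℕ → Set (cd.CodeN J × (cd.CodeN J → ZMod l))) (i : ℕ)
    (b : cd.CodeN J) : Prop :=
  1 ≤ i → ∀ y ∈ Lam i, y.2 b = 0

/-- `a` and `b` are independent modulo the coboundaries. -/
def Indep2N {J : Type} (a b : cd.CodeN J) : Prop :=
  ∀ (x y : ZMod l) (z : V1), x • a + y • b = cd.kapN J z → x = 0 ∧ y = 0

/-- `a` is not a coboundary and `b` is a nonzero multiple of `a` modulo the coboundaries. -/
def DiagN {J : Type} (a b : cd.CodeN J) : Prop :=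
  (∀ z, a ≠ cd.kapN J z) ∧ ∃ μ : ZMod l, μ ≠ 0 ∧ ∃ z : V1, b = μ • a + cd.kapN J z

/-- A basis of `F` modulo the coboundaries, adapted to the flag, with `c l1 = a`. -/
structure BasD {J : Type} (F : Set (cd.CodeN J)) (L : ℕ → Set (cd.CodeN J)) (m : ℕ)
    (a : cd.CodeN J) where
  r : ℕ
  c : Fin r → cd.CodeN J
  l1 : Fin r
  c_l1 : c l1 = a
  mem : ∀ k, c k ∈ F
  span : ∀ x ∈ F, ∃ (α : Fin r → ZMod l) (z : V1), x = cd.kapN J z + ∑ k, α k • c k
  indep : ∀ (α : Fin r → ZMod l) (z : V1), ∑ k, α k • c k = cd.kapN J z → α = 0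
  adapted : ∀ i, 1 ≤ i → i ≤ m → ∀ x ∈ L i, ∃ (α : Fin r → ZMod l) (z : V1),
    x = cd.kapN J z + ∑ k, α k • c k ∧ ∀ k, α k ≠ 0 → c k ∈ L i

/-- A basis as in `BasD` with moreover `b` in the span of the others. -/
structure BasN {J : Type} (F : Set (cd.CodeN J)) (L : ℕ → Set (cd.CodeN J)) (m : ℕ)
    (a b : cd.CodeN J) extends cd.BasD F L m a where
  l0 : Fin r
  ne : l0 ≠ l1
  β : Fin r → ZMod l
  b_eq : b = ∑ k, β k • c k
  β_l1 : β l1 = 0
  β_l0 : β l0 = 1

/-- The basis with the prescribed supports in the directions (independent pairs `(a, b)`). -/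
structure SuppN {J : Type} (F : Set (cd.CodeN J)) (L : ℕ → Set (cd.CodeN J)) (m : ℕ)
    (a b : cd.CodeN J) (dir : Dir m ↪ J) extends cd.BasN F L m a b where
  e : V1
  e' : V1
  supp0 : ∀ k (i : Fin m), (c k).2 (dir (some (some i))) = 0
  suppa : ∀ k, (c k).2 (dir (some none)) = if k = l1 then e else 0
  suppb : ∀ k, (c k).2 (dir none) = if k = l0 then e' else 0
  pair : S.e e e' = 1

/-- The basis with the prescribed supports in the directions (diagonal pairs): `a = c l1` has the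
component `e` in the direction `ia` and `e'` in the direction `ib`, all other basis elements are
zero in all directions. -/
structure SuppD {J : Type} (F : Set (cd.CodeN J)) (L : ℕ → Set (cd.CodeN J)) (m : ℕ)
    (a : cd.CodeN J) (dir : Dir m ↪ J) extends cd.BasD F L m a where
  e : V1
  e' : V1
  supp0 : ∀ k (i : Fin m), (c k).2 (dir (some (some i))) = 0
  suppa : ∀ k, (c k).2 (dir (some none)) = if k = l1 then e else 0
  suppb : ∀ k, (c k).2 (dir none) = if k = l1 then e' else 0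
  pair : S.e e e' = 1

/-- The number of the Selmer cocycles of level `i`. -/
noncomputable def nZN (ex : J → ZMod l) (p : J → cd.Mk) (i : ℕ) : ℕ :=
  Nat.card {Psi : G → V // S.IsSel (cd.chiN ex p) i Psi}

open Classical in
/-- The sum over the independent pairs at level `i`. -/
noncomputable def sumI (ex : J → ZMod l) (p : J → cd.Mk) (i : ℕ) : ℂ :=
  ∑ᶠ ab : cd.CodeN J × cd.CodeN J,
    if ab.1 ∈ cd.LflN (cd.FN ex p) (cd.LamN ex p) i ∧ ab.2 ∈ cd.FN ex p ∧
      cd.Indep2N ab.1 ab.2 ∧ cd.PerpN (cd.LamN ex p) (i - 1) ab.2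
    then psi (cd.FFN ex p i ab.1 ab.2) else 0

open Classical in
/-- The sum over the diagonal pairs at level `i`. -/
noncomputable def sumD (ex : J → ZMod l) (p : J → cd.Mk) (i : ℕ) : ℂ :=
  ∑ᶠ ab : cd.CodeN J × cd.CodeN J,
    if ab.1 ∈ cd.LflN (cd.FN ex p) (cd.LamN ex p) i ∧ ab.2 ∈ cd.FN ex p ∧
      cd.DiagN ab.1 ab.2 ∧ cd.PerpN (cd.LamN ex p) (i - 1) ab.2
    then psi (cd.FFN ex p i ab.1 ab.2) else 0

/-- **Block G6**: what block L needs for one vector `p` with `PVecN p` and `J` nonempty. -/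
structure LFactsN (ex : J → ZMod l) (p : J → cd.Mk) : Prop where
  fin : ∀ i, Finite {Psi : G → V // S.IsSel (cd.chiN ex p) i Psi}
  card_zero : cd.nZN ex p 0 = 1
  card_succ : ∀ i, cd.nZN ex p (i + 1) =
    cd.nZN ex p i * Nat.card (cd.LflN (cd.FN ex p) (cd.LamN ex p) (i + 1))
  /-- every level -/
  recur : ∀ i, 1 ≤ i → (cd.nZN ex p (i + 1) : ℝ) ≤
    (l + 1) * Nat.card V1 * cd.nZN ex p i + cd.nZN ex p (i - 1) * (cd.sumI ex p i).re
  /-- the form used at the symmetric levels -/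
  recur' : ∀ i, 1 ≤ i → (cd.nZN ex p (i + 1) : ℝ) ≤
    2 * Nat.card V1 * cd.nZN ex p i +
      cd.nZN ex p (i - 1) * ((cd.sumI ex p i).re + (cd.sumD ex p i).re)
  basis : ∀ m, 1 ≤ m → ∀ a ∈ cd.LflN (cd.FN ex p) (cd.LamN ex p) m, ∀ b ∈ cd.FN ex p,
    cd.Indep2N a b → Nonempty (cd.BasN (cd.FN ex p) (cd.LflN (cd.FN ex p) (cd.LamN ex p)) m a b)
  basisD : ∀ m, 1 ≤ m → ∀ a ∈ cd.LflN (cd.FN ex p) (cd.LamN ex p) m, (∀ z, a ≠ cd.kapN J z) →
    Nonempty (cd.BasD (cd.FN ex p) (cd.LflN (cd.FN ex p) (cd.LamN ex p)) m a)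

/-! ### Block I -/

open Classical in
/-- The vector `p` with the entries in the directions replaced by `x`. -/
noncomputable def replN {J I : Type} (p : J → cd.Mk) (dir : I ↪ J) (x : I → cd.Mk) (j : J) :
    cd.Mk := if h : ∃ i, dir i = j then x h.choose else p j

/-- The BIG class in the direction `i`: the marked primes with the degree, the class `kf` and the
symbols with respect to all entries of `p` off the directions of `p (dir i)`. This is a Chebotarev
class. -/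
def XB {J : Type} {m : ℕ} (p : J → cd.Mk) (dir : Dir m ↪ J) (i : Dir m) : Type :=
  {x : cd.Mk // X.deg x.1 = X.deg (p (dir i)).1 ∧
    cd.kf (cd.phx x) = cd.kf (cd.phx (p (dir i))) ∧
    ∀ j, (∀ i', dir i' ≠ j) →
      cd.ch (p j).1 (cd.phx x) = cd.ch (p j).1 (cd.phx (p (dir i))) ∧
      ∀ w, cd.Fx (p j) w → cd.bex (p j) w (cd.phx x) = cd.bex (p j) w (cd.phx (p (dir i)))}

/-- The same symbols between the directions and the same self symbols. -/
structure DirEq {m : ℕ} {J : Type} (dir : Dir m ↪ J) (p p' : J → cd.Mk) : Prop where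
  ch : ∀ i k, i ≠ k → cd.ch (p (dir i)).1 (cd.phx (p (dir k))) =
    cd.ch (p' (dir i)).1 (cd.phx (p' (dir k)))
  be : ∀ i k, i ≠ k → ∀ w, cd.bex (p (dir i)) w (cd.phx (p (dir k))) =
    cd.bex (p' (dir i)) w (cd.phx (p' (dir k)))
  self : ∀ i w, cd.bex (p (dir i)) w (cd.phx (p (dir i))) -
      cd.ch (p (dir i)).1 (cd.phx (p (dir i))) • w =
    cd.bex (p' (dir i)) w (cd.phx (p' (dir i))) -
      cd.ch (p' (dir i)).1 (cd.phx (p' (dir i))) • w

/-- Same direction symbols and same relations below level `m`. -/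
def TypEqN (ex : J → ZMod l) {m : ℕ} (dir : Dir m ↪ J) (p p' : J → cd.Mk) : Prop :=
  cd.DirEq dir p p' ∧ cd.FN ex p = cd.FN ex p' ∧
    ∀ i, 1 ≤ i → i < m → cd.LamN ex p i = cd.LamN ex p' i

/-- The hypotheses on a vector and its directions. -/
structure DirOk {m : ℕ} (ex : J → ZMod l) (p : J → cd.Mk) (dir : Dir m ↪ J) : Prop where
  ex_ne : ∀ j, ex j ≠ 0
  vec : cd.PVecN p
  few : (Nat.card J : ℝ) ≤ 2 * l * Real.log (cd.degN p)
  large : ∀ i, N0 (cd.degN p) ≤ X.deg (p (dir i)).1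
  dist : ∀ i j, X.deg (p j).1 = X.deg (p (dir i)).1 → j = dir i
  split : ∀ i, cd.Split (p (dir i))

/-- **Frame** (block I): the Selmer codes are constant along the points of the big grid with the
same direction symbols. -/
def FrameThm : Prop :=
  ∀ (J : Type) (_ : Fintype J) (ex : J → ZMod l) (m : ℕ) (p : J → cd.Mk) (dir : Dir m ↪ J),
    cd.DirOk ex p dir → ∀ x y : (i : Dir m) → cd.XB p dir i,
      cd.DirEq dir (cd.replN p dir fun i => (x i).1) (cd.replN p dir fun i => (y i).1) →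
      cd.FN ex (cd.replN p dir fun i => (x i).1) = cd.FN ex (cd.replN p dir fun i => (y i).1)

open Classical in
/-- **Theorem I** at level `m` (block I), independent pairs. -/
def GridThmN (q m : ℕ) : Prop :=
  ∀ (R : ℕ) (η : ℝ), 0 < η → ∃ n₀ : ℕ, ∀ (J : Type) (_ : Fintype J) (ex : J → ZMod l)
    (p : J → cd.Mk) (a b : cd.CodeN J) (dir : Dir m ↪ J), cd.DirOk ex p dir → n₀ ≤ cd.degN p →
    Nat.card (cd.FN ex p) ≤ 2 ^ R →
    a ∈ cd.LflN (cd.FN ex p) (cd.LamN ex p) m →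
    b ∈ cd.FN ex p →
    cd.PerpN (cd.LamN ex p) (m - 1) b →
    Nonempty (cd.SuppN (cd.FN ex p) (cd.LflN (cd.FN ex p) (cd.LamN ex p)) m a b dir) →
    (∀ i, (q : ℝ) ^ (9 * X.deg (p (dir i)).1 / 10) ≤ Nat.card (cd.XB p dir i)) →
    ‖∑ᶠ x : (i : Dir m) → cd.XB p dir i,
        if cd.TypEqN ex dir (cd.replN p dir fun i => (x i).1) p then
          psi (cd.FFN ex (cd.replN p dir fun i => (x i).1) m a b) else 0‖ ≤
      η * ∏ i, (Nat.card (cd.XB p dir i) : ℝ)

open Classical in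
/-- **Theorem I** at a symmetric level `m` (block I), diagonal pairs. -/
def GridThmD (q m : ℕ) : Prop :=
  ∀ (R : ℕ) (η : ℝ), 0 < η → ∃ n₀ : ℕ, ∀ (J : Type) (_ : Fintype J) (ex : J → ZMod l)
    (p : J → cd.Mk) (a b : cd.CodeN J) (dir : Dir m ↪ J), cd.DirOk ex p dir → n₀ ≤ cd.degN p →
    Nat.card (cd.FN ex p) ≤ 2 ^ R →
    a ∈ cd.LflN (cd.FN ex p) (cd.LamN ex p) m →
    b ∈ cd.FN ex p →
    cd.PerpN (cd.LamN ex p) (m - 1) b →
    cd.DiagN a b →
    Nonempty (cd.SuppD (cd.FN ex p) (cd.LflN (cd.FN ex p) (cd.LamN ex p)) m a dir) →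
    (∀ i, (q : ℝ) ^ (9 * X.deg (p (dir i)).1 / 10) ≤ Nat.card (cd.XB p dir i)) →
    ‖∑ᶠ x : (i : Dir m) → cd.XB p dir i,
        if cd.TypEqN ex dir (cd.replN p dir fun i => (x i).1) p then
          psi (cd.FFN ex (cd.replN p dir fun i => (x i).1) m a b) else 0‖ ≤
      η * ∏ i, (Nat.card (cd.XB p dir i) : ℝ)

/-! ### Block L -/

/-- The character of the twist by `c`. -/
noncomputable def chiD (c : X.Pr →₀ ZMod l) (s : G) : ZMod l :=
  cd.chi0 s + ∑ P ∈ c.support, c P * cd.ch P s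

/-- **Block L**: the conclusion of the counting half. -/
def LThm : Prop :=
  ∀ ε : ℝ, 0 < ε → ∃ m₁ : ℕ, ∀ m ≥ m₁, ∃ n₀ : ℕ, ∀ n ≥ n₀,
    (Nat.card {c : X.TD l n //
      ¬ (Finite {Psi : G → V // S.IsSel (cd.chiD c.1) m Psi} ∧
        Nat.card {Psi : G → V // S.IsSel (cd.chiD c.1) m Psi} < (l * Nat.card V1) ^ m)} : ℝ) ≤
      ε * X.nTD l n

end CData

end

end Pool.Agent.SmL
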