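import Pool.Agent.Lib.SmL.Sys

/-!
# SMITH-L, counting half: definitions and interfaces

`PSys`: a prime system, the primes outside of the bad places with their degrees (the places of the
global function field `K` outside a finite set). A twist is given by a fixed character `chi0` and a
finitely supported function `c : X.Pr →₀ ZMod l` (the exponents): `chi0 + ∑ c P * ch P`. So all
characters `G → ZMod l` occur (once for every fixed `chi0`).

`CData`: what the arithmetic half delivers for the counting: the places `pl P`, representatives `R`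
of `G / GN` (`GN` = kernel of the action on `V1`), the class `kf s` of an element of `G` in a finite
set (conjugacy class under `GN` in a fixed finite quotient), the characters `ch P` and the
cocycles `be P w` ramified only at `P` and the bad places, and the finite space of the cocycles
ramified only at the bad places.

A MARKED PRIME is a pair `x = (P, g)`, `g ∈ R`; its Frobenius element is
`phx x = g (phi P) g⁻¹`, its tame generator `sgx x = g (sg P) g⁻¹` and the cocycle with value `w` at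
`sgx x` is `bex x w = be P (g⁻¹ w)`.

The exponents of a vector `p : J → Mk` of marked primes are a function `ex : J → ZMod l` without
zeros, which is fixed on a grid.
-/

set_option autoImplicit false

open Finset

namespace Pool.Agent.SmL

/-- A prime system. -/
structure PSys where
  Pr : Type
  deg : Pr → ℕ

namespace PSys

variable (X : PSys)

/-- The primes of degree `d`. -/
abbrev Of (d : ℕ) : Type := {P : X.Pr // X.deg P = d}

/-- The degree of a squarefree divisor. -/
def degS (D : Finset X.Pr) : ℕ := ∑ P ∈ D, X.deg P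

/-- The twists of degree `n`: exponents modulo `l` at finitely many primes, the sum of the degrees
of these primes is `n`. -/
abbrev TD (l n : ℕ) : Type := {c : X.Pr →₀ ZMod l // X.degS c.support = n}

/-- The number of the twists of degree `n`. -/
noncomputable def nTD (l n : ℕ) : ℕ := Nat.card (X.TD l n)

/-- Prime number theorem with square root error. -/
structure Ok (q : ℕ) : Prop where
  two_le : 2 ≤ q
  pos : ∀ P, 1 ≤ X.deg P
  fin : ∀ d, Finite (X.Of d)
  pnt : ∃ C : ℝ, ∀ d : ℕ, 1 ≤ d → |(d : ℝ) * Nat.card (X.Of d) - (q : ℝ) ^ d| ≤ C * √((q : ℝ) ^ d)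

/-- The lower bound for the number of the twists of degree `n` (block K proves it from `Ok q` for
`l ≤ q`). -/
def DD (l q : ℕ) : Prop :=
  ∃ c : ℝ, 0 < c ∧ ∃ n₀ : ℕ, ∀ n ≥ n₀, c * (n : ℝ) ^ (l - 2) * (q : ℝ) ^ n ≤ X.nTD l n

end PSys

section

variable {l : ℕ} {A G V V1 Pl : Type} [CommRing A] [Group G] [AddCommGroup V] [Module A V]
  [DistribMulAction G V] [AddCommGroup V1] [Module (ZMod l) V1]

/-- The kernel of the action on `V1`. -/
def Sys.GN (S : Sys l A G V V1 Pl) : Subgroup G := S.ac.ker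

/-- The counting data. -/
structure CData (S : Sys l A G V V1 Pl) (X : PSys) where
  pl : X.Pr → Pl
  R : Finset G
  Kf : Type
  kf : G → Kf
  chi0 : G → ZMod l
  ch : X.Pr → G → ZMod l
  be : X.Pr → V1 → G → V1
  h : ℕ
  hb : (Fin h → ZMod l) →ₗ[ZMod l] (G → V1)
  kb : V1 →ₗ[ZMod l] (Fin h → ZMod l)

namespace CData

variable {S : Sys l A G V V1 Pl} {X : PSys} (cd : CData S X)

/-- The marked primes. -/
abbrev Mk : Type := X.Pr × {g : G // g ∈ cd.R}

/-- The Frobenius element of a marked prime. -/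
def phx (x : cd.Mk) : G := x.2.1 * S.phi (cd.pl x.1) * x.2.1⁻¹

/-- The tame generator of a marked prime. -/
def sgx (x : cd.Mk) : G := x.2.1 * S.sg (cd.pl x.1) * x.2.1⁻¹

/-- The cocycle with value `w` at `sgx x`. -/
def bex (x : cd.Mk) (w : V1) (s : G) : V1 := cd.be x.1 (S.ac x.2.1⁻¹ w) s

/-- `w` is fixed by the Frobenius element of `x`. -/
def Fx (x : cd.Mk) (w : V1) : Prop := S.ac (cd.phx x) w = w

/-- `x` splits in the field of `V1`. -/
def Split (x : cd.Mk) : Prop := cd.phx x ∈ S.GN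

/-- Unramified outside of the bad places. -/
def Unr {B : Type} [Zero B] (c : G → B) : Prop := ∀ P, c (S.sg (cd.pl P)) = 0

/-- The properties of the counting data (delivered by the arithmetic half). -/
structure Ok : Prop where
  pl_inj : Function.Injective cd.pl
  pl_good : ∀ P, cd.pl P ∈ S.good
  fin_bad : (Set.range cd.pl)ᶜ.Finite
  rep : ∀ g : G, ∃! h, h ∈ cd.R ∧ g⁻¹ * h ∈ S.GN
  /-- the class `kf`: a function on a finite quotient which is unramified at the primes -/
  kf_fin : Finite cd.Kf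
  kf_tf : ∃ N ∈ S.NN, N.index ≠ 0 ∧ (∀ P, S.sg (cd.pl P) ∈ N) ∧
    ∀ s, ∀ n ∈ N, cd.kf (s * n) = cd.kf s
  kf_conj : ∀ s, ∀ t ∈ S.GN, cd.kf (t * s * t⁻¹) = cd.kf s
  kf_ac : ∀ s t, cd.kf s = cd.kf t → S.ac s = S.ac t
  /-- the action on `V[lam^2]` modulo coboundaries -/
  kf_four : ∀ s t, cd.kf s = cd.kf t → ∀ Q : V, S.lam ^ 2 • Q = 0 →
    s • (S.lam • Q) = S.lam • Q → ∃ z : V1, s • Q - t • Q = S.iota (S.ac s z - z)
  kf_coc : ∀ c : G → V1, S.CocG c → cd.Unr c → ∀ s t, cd.kf s = cd.kf t →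
    ∃ z : V1, c s - c t = S.ac s z - z
  kf_hom : ∀ c : G → ZMod l, S.HomG c → cd.Unr c → ∀ s t, cd.kf s = cd.kf t → c s = c t
  /-- the local classes at the bad places are functions of `kf` -/
  kf_bad : ∀ x y : cd.Mk, cd.kf (cd.phx x) = cd.kf (cd.phx y) → ∀ v, v ∉ Set.range cd.pl →
    (∀ s ∈ S.D v, cd.ch x.1 s = cd.ch y.1 s) ∧
    ∀ w, cd.Fx x w → ∃ z : V1, ∀ s ∈ S.D v, cd.bex x w s - cd.bex y w s = S.ac s z - z
  /-- the characters -/
  chi0_hom : S.HomG cd.chi0
  chi0_unr : cd.Unr cd.chi0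
  ch_hom : ∀ P, S.HomG (cd.ch P)
  ch_self : ∀ P, cd.ch P (S.sg (cd.pl P)) = 1
  ch_unr : ∀ P Q, Q ≠ P → cd.ch P (S.sg (cd.pl Q)) = 0
  ch_rec : ∃ Rr : cd.Kf → cd.Kf → ZMod l, ∀ x y : cd.Mk, x.1 ≠ y.1 →
    cd.ch x.1 (cd.phx y) - cd.ch y.1 (cd.phx x) = Rr (cd.kf (cd.phx x)) (cd.kf (cd.phx y))
  /-- the cocycles -/
  be_coc : ∀ P w, S.ac (S.phi (cd.pl P)) w = w → S.CocG (cd.be P w)
  be_add : ∀ P w w', S.ac (S.phi (cd.pl P)) w = w → S.ac (S.phi (cd.pl P)) w' = w' →
    cd.be P (w + w') = cd.be P w + cd.be P w'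
  be_self : ∀ P w, S.ac (S.phi (cd.pl P)) w = w → cd.be P w (S.sg (cd.pl P)) = w
  be_unr : ∀ P w Q, Q ≠ P → S.ac (S.phi (cd.pl P)) w = w → cd.be P w (S.sg (cd.pl Q)) = 0
  /-- the cocycles which are ramified at the bad places only -/
  hb_inj : Function.Injective cd.hb
  hb_range : ∀ c : G → V1, (∃ b, cd.hb b = c) ↔ S.CocG c ∧ cd.Unr c
  kb_eq : ∀ z s, cd.hb (cd.kb z) s = S.ac s z - z
  /-- no fixed vectors, and `F_l[G] → End V1 × F_l` is onto -/
  nofix : ∀ w : V1, (∀ s, S.ac s w = w) → w = 0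
  span : ∀ (B : V1 →ₗ[ZMod l] V1) (ε : ZMod l), ∃ T : G →₀ ZMod l,
    (∀ w, ∑ g ∈ T.support, T g • S.ac g w = B w) ∧ ∑ g ∈ T.support, T g = ε

/-- **Chebotarev**, full form. `Geo` is the geometric subgroup of `G`, `fr` an element
which acts on the constants as the Frobenius automorphism. `T` is a set of representatives of
`Geo / Geo ∩ N`. -/
def Cheb (Geo : Subgroup G) (fr : G) (q a C : ℕ) : Prop :=
  ∀ N : Subgroup G, N.Normal → (∃ N0 ∈ S.NN, N0 ≤ N) →
    ∀ f : G → ℝ, (∀ s, ∀ n ∈ N, f (s * n) = f s) → (∀ s t, f (t * s * t⁻¹) = f s) →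
    (∀ s, |f s| ≤ 1) →
    ∀ T : Finset G, (∀ t ∈ T, t ∈ Geo) → (∀ g ∈ Geo, ∃! t, t ∈ T ∧ t⁻¹ * g ∈ N) →
    ∀ d r : ℕ, 1 ≤ d → ∀ B : Finset X.Pr, (∀ P, S.sg (cd.pl P) ∉ N → P ∈ B) →
    X.degS B ≤ r → ∀ E : Finset X.Pr, (∀ P, P ∈ E ↔ X.deg P = d ∧ P ∉ B) →
    |∑ P ∈ E, f (S.phi (cd.pl P)) - (E.card : ℝ) * ((∑ t ∈ T, f (fr ^ d * t)) / T.card)| ≤
      C * ((N.index : ℝ) * (r + 1)) ^ a * √((q : ℝ) ^ d)

/-- What is used about the geometric subgroup. -/
structure GeoOk (Geo : Subgroup G) (fr : G) : Prop where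
  normal : Geo.Normal
  sg_mem : ∀ v, S.sg v ∈ Geo
  comm : commutator G ≤ Geo
  gen : ∀ N ∈ S.NN, ∀ s : G, ∃ (i : ℕ) (g : G), g ∈ Geo ∧ (fr ^ i * g)⁻¹ * s ∈ N
  /-- no nonzero class of `G / GN` which is locally trivial on the elements of `Geo` -/
  znd : ∀ c : G → V1, S.CocG c → (∀ s ∈ S.GN, c s = 0) →
    (∀ s ∈ Geo, ∃ z : V1, c s = S.ac s z - z) → ∃ z : V1, ∀ s, c s = S.ac s z - z

/-! ### Codes over an index set -/

/-- Codes over the index set `J`. -/
abbrev CodeN (J : Type) : Type := (Fin cd.h → ZMod l) × (J → V1)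

/-- The code of the coboundary of `z`. -/
def kapN (J : Type) (z : V1) : cd.CodeN J := (cd.kb z, 0)

variable {J : Type} [Fintype J]

/-- The cocycle coded by `c`. -/
noncomputable def homN (p : J → cd.Mk) (c : cd.CodeN J) (s : G) : V1 :=
  cd.hb c.1 s + ∑ j, cd.bex (p j) (c.2 j) s

/-- The character of the twist. -/
def chiN (ex : J → ZMod l) (p : J → cd.Mk) (s : G) : ZMod l :=
  cd.chi0 s + ∑ j, ex j * cd.ch (p j).1 s

/-- A vector of marked primes with distinct underlying primes. -/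
def PVecN (p : J → cd.Mk) : Prop := Function.Injective fun j => (p j).1

/-- The total degree. -/
def degN (p : J → cd.Mk) : ℕ := ∑ j, X.deg (p j).1

/-- The components of the code are fixed by the Frobenius elements. -/
def ValidN (p : J → cd.Mk) (c : cd.CodeN J) : Prop := ∀ j, cd.Fx (p j) (c.2 j)

/-- The codes of the `lam`-Selmer group of the twist. -/
def FN (ex : J → ZMod l) (p : J → cd.Mk) : Set (cd.CodeN J) :=
  {c | cd.ValidN p c ∧ S.IsSel1 (cd.chiN ex p) (cd.homN p c)}

/-- The codes which satisfy the Selmer condition at the primes of `D` (block J). -/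
def SelpN (ex : J → ZMod l) (p : J → cd.Mk) : Set (cd.CodeN J) :=
  {c | cd.ValidN p c ∧
    ∀ j, S.loc (cd.pl (p j).1) (cd.homN p c) ∈ S.Wl (cd.chiN ex p) (cd.pl (p j).1)}

/-- `c 0, ..., c (r-1)` are linearly independent modulo the coboundaries. -/
def IndepN {r : ℕ} (c : Fin r → cd.CodeN J) : Prop :=
  ∀ a : Fin r → ZMod l, (∃ z : V1, ∑ i, a i • c i = cd.kapN J z) → a = 0

/-- The vector `p` is typical (for `N0`): the Selmer group is small, and every pattern of an
independent family occurs at a proportion `ρ` of the indices, at split primes of degree `≥ N0`. -/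
structure TypN (ex : J → ZMod l) (p : J → cd.Mk) (R : ℕ) (ρ : ℝ) (N0 : ℕ) : Prop where
  small : Nat.card (cd.SelpN ex p) ≤ 2 ^ R
  generic : ∀ (r : ℕ) (c : Fin r → cd.CodeN J), (∀ i, c i ∈ cd.SelpN ex p) → cd.IndepN c →
    ∀ w : Fin r → V1, ρ * Nat.card J ≤ Nat.card {j : J // N0 ≤ X.deg (p j).1 ∧ cd.Split (p j) ∧
      ∀ i, (c i).2 j = w i}

end CData

end

end Pool.Agent.SmL
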