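import Pool.Agent.Lib.SmL.Cnt.Stmts

/-!
# SMITH-L: the additive character `psi` of `ZMod l`

`psiC l : AddChar (ZMod l) ℂ` is the standard additive character, `psiC l a = psi a`.
-/

set_option autoImplicit false

open Finset

namespace Pool.Agent.SmL

variable {l : ℕ} [NeZero l]

/-- The standard additive character of `ZMod l`. -/
noncomputable def psiC (l : ℕ) [NeZero l] : AddChar (ZMod l) ℂ := ZMod.stdAddChar

theorem psiC_apply (a : ZMod l) : psiC l a = psi a := by
  unfold psiC psi
  rw [ZMod.stdAddChar_apply, ZMod.toCircle_apply]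

theorem psi_zero : psi (0 : ZMod l) = 1 := by
  rw [← psiC_apply, AddChar.map_zero_eq_one]

theorem psi_add (a b : ZMod l) : psi (a + b) = psi a * psi b := by
  rw [← psiC_apply, ← psiC_apply, ← psiC_apply, AddChar.map_add_eq_mul]

theorem psi_neg (a : ZMod l) : psi (-a) = (psi a)⁻¹ := by
  rw [← psiC_apply, ← psiC_apply, AddChar.map_neg_eq_inv]

theorem norm_psi (a : ZMod l) : ‖psi a‖ = 1 := by
  rw [← psiC_apply]
  exact AddChar.norm_apply _ _

theorem psi_ne_zero (a : ZMod l) : psi a ≠ 0 := by
  intro h
  have := norm_psi a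
  rw [h, norm_zero] at this
  exact zero_ne_one this

theorem psi_sum {α : Type*} (s : Finset α) (f : α → ZMod l) :
    psi (∑ i ∈ s, f i) = ∏ i ∈ s, psi (f i) := by
  classical
  induction s using Finset.induction_on with
  | empty => rw [sum_empty, prod_empty, psi_zero]
  | insert a s ha ih => rw [sum_insert ha, prod_insert ha, psi_add, ih]

theorem psi_conj (a : ZMod l) : (starRingEnd ℂ) (psi a) = psi (-a) := by
  rw [← psiC_apply, ← psiC_apply, ← AddChar.map_neg_eq_conj]

theorem psi_eq_one_iff {a : ZMod l} : psi a = 1 ↔ a = 0 := by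
  constructor
  · intro h
    rw [← psiC_apply, ← AddChar.map_zero_eq_one (psiC l)] at h
    exact ZMod.injective_stdAddChar h
  · rintro rfl
    exact psi_zero

theorem psiC_eq_one_iff {a : ZMod l} : psiC l a = 1 ↔ a = 0 := by
  rw [psiC_apply, psi_eq_one_iff]

open Classical in
/-- Orthogonality on a finite group. -/
theorem sum_psi_hom {M : Type*} [AddCommGroup M] [Fintype M] (f : M →+ ZMod l) :
    ∑ x : M, psi (f x) = if ∀ x, f x = 0 then (Fintype.card M : ℂ) else 0 := by
  have h1 : ∀ x, psi (f x) = (psiC l).compAddMonoidHom f x := fun x => by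
    rw [AddChar.compAddMonoidHom_apply, psiC_apply]
  split_ifs with h
  · have : ∀ x, psi (f x) = 1 := fun x => by rw [h x, psi_zero]
    simp [this]
  · rw [sum_congr rfl fun x _ => h1 x]
    refine AddChar.sum_eq_zero_of_ne_one fun hc => ?_
    push Not at h
    obtain ⟨x, hx⟩ := h
    apply hx
    rw [← psi_eq_one_iff, h1 x, hc]
    rfl

/-- The sum of `psi` over all multiples. -/
theorem sum_psi_mul [Fact l.Prime] {a : ZMod l} (ha : a ≠ 0) :
    ∑ x : ZMod l, psi (x * a) = 0 := by
  classical
  have h1 := sum_psi_hom (l := l) (M := ZMod l) (AddMonoidHom.mulRight a)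
  rw [if_neg] at h1
  · exact h1
  · intro h
    have : (1 : ZMod l) * a = 0 := h 1
    rw [one_mul] at this
    exact ha this

end Pool.Agent.SmL
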