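import Pool.Agent.Lib.SmL.L.Sum
import Pool.Agent.Lib.SmL.J.Main
import Pool.Agent.Lib.SmL.I.GridThmF
import Pool.Agent.Lib.SmL.I.FrC
import Pool.Agent.Lib.SmL.G6.LFactsOk

/-!
# SMITH-L (l odd): the counting half, summary

`CData.lThm_of`: small Selmer groups of level `m` for almost all characters with the base character
`cd.chi0`, from `S.Ok`, `X.Ok q`, `cd.Ok`, `GeoOk` and Chebotarev.
-/

set_option autoImplicit false

open Finset

namespace Pool.Agent.SmL.CData

variable {l : ℕ} {A G V V1 Pl : Type} [CommRing A] [Group G] [AddCommGroup V] [Module A V]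
  [DistribMulAction G V] [AddCommGroup V1] [Module (ZMod l) V1] {S : Sys l A G V V1 Pl} {X : PSys}
  {cd : CData S X}

/-- **The counting half of SMITH-L.** -/
theorem lThm_of [Nontrivial V1] (hS : S.Ok) (hc : cd.Ok) {q : ℕ} (hX : X.Ok q)
    (hNf : ∀ N ∈ S.NN, N.index ≠ 0) {Geo : Subgroup G} {fr : G} (hG : CData.GeoOk (S := S) Geo fr)
    {a C : ℕ} (hC : cd.Cheb Geo fr q a C) {m0 : ℕ} (h0 : 1 ≤ m0) (hm0 : fr ^ m0 ∈ S.GN) :
    cd.LThm := by
  have := hS.fin1
  exact lThm cd hX hS hc (fun _ _ _ _ hex _ hp => lfactsN hS hc hp hex) (FrN.frameThm hS hc)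
    (fun _ hm => FrN.gridThmN hS hc hX hNf hG hC hm)
    (fun _ hm hs => FrN.gridThmD hS hc hX hNf hG hC hm hs) m0 h0
    fun c0 hc0 r0 => J.jThm hS hX hc hG hC m0 hm0 c0 hc0 r0

end Pool.Agent.SmL.CData
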